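import Mathlib
import Pool.Agent.H17.Hech

set_option autoImplicit false

namespace Pool.Agent.Results.MP_ed8104_gt.Indep
open Set Filter Topology

/-- The dominating number. -/
noncomputable def dd : Cardinal.{0} :=
  sInf {c | ∃ D : Set (ℕ → ℕ), Cardinal.mk D = c ∧ ∀ g : ℕ → ℕ, ∃ f ∈ D, ∀ᶠ n in atTop, g n ≤ f n}

def WL (X : Type) [TopologicalSpace X] : Prop :=
  ∀ 𝒰 : Set (Set X), (∀ U ∈ 𝒰, IsOpen U) → ⋃₀ 𝒰 = univ →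
    ∃ 𝒱 ⊆ 𝒰, 𝒱.Countable ∧ Dense (⋃₀ 𝒱)

def Covers {X : Type} [TopologicalSpace X] (𝒰 : ℕ → Set (Set X)) : Prop :=
  ∀ n, (∀ U ∈ 𝒰 n, IsOpen U) ∧ ⋃₀ 𝒰 n = univ

def Sel {X : Type} (𝒰 𝒱 : ℕ → Set (Set X)) : Prop := ∀ n, 𝒱 n ⊆ 𝒰 n ∧ (𝒱 n).Finite

def WM (X : Type) [TopologicalSpace X] : Prop :=
  ∀ 𝒰 : ℕ → Set (Set X), Covers 𝒰 → ∃ 𝒱, Sel 𝒰 𝒱 ∧ Dense (⋃ n, ⋃₀ 𝒱 n)

def WS (X : Type) [TopologicalSpace X] : Prop :=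
  ∀ 𝒰 : ℕ → Set (Set X), Covers 𝒰 → ∃ 𝒱, Sel 𝒰 𝒱 ∧
    ∀ ℱ : Set (Set X), ℱ.Finite → (∀ U ∈ ℱ, IsOpen U ∧ U.Nonempty) →
      {n | ∀ U ∈ ℱ, (U ∩ ⋃₀ 𝒱 n).Nonempty}.Infinite

def WSK (X : Type) [TopologicalSpace X] : Prop :=
  ∀ 𝒰 : ℕ → Set (Set X), Covers 𝒰 → ∃ (Y : Set X) (𝒱 : ℕ → Set (Set X)), Dense Y ∧ Sel 𝒰 𝒱 ∧
    ∀ F ⊆ Y, F.Finite → {n | F ⊆ ⋃₀ 𝒱 n}.Infinite

theorem a_b (X : Type) [TopologicalSpace X] (h : WSK X) : WS X := fun 𝒰 hU => by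
  obtain ⟨Y, 𝒱, h1, h2, h3⟩ := h 𝒰 hU
  refine ⟨𝒱, h2, fun ℱ hf hℱ => ?_⟩
  have h4 : ∀ U ∈ ℱ, ∃ y, y ∈ U ∧ y ∈ Y := fun U hU =>
    h1.inter_open_nonempty U (hℱ U hU).1 (hℱ U hU).2
  choose y hy hy' using h4
  have := hf.to_subtype
  refine (h3 (range fun U : ℱ => y U U.2) (range_subset_iff.2 fun U => hy' _ _)
    (finite_range _)).mono ?_
  intro n hn U hU
  exact ⟨y U hU, hy U hU, hn ⟨⟨U, hU⟩, rfl⟩⟩

theorem b_c (X : Type) [TopologicalSpace X] (h : WS X) : WM X := fun 𝒰 hU => by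
  obtain ⟨𝒱, h1, h2⟩ := h 𝒰 hU
  refine ⟨𝒱, h1, dense_iff_inter_open.2 fun O hO hne => ?_⟩
  obtain ⟨n, hn⟩ := (h2 {O} (finite_singleton _) (by rintro _ rfl; exact ⟨hO, hne⟩)).nonempty
  obtain ⟨x, hx⟩ := hn O rfl
  exact ⟨x, hx.1, mem_iUnion.2 ⟨n, hx.2⟩⟩

theorem cnt (X : Type) [TopologicalSpace X] [Countable X] : WSK X := fun 𝒰 hU => by
  obtain ⟨e, he⟩ := exists_injective_nat X
  have h : ∀ n x, ∃ U ∈ 𝒰 n, x ∈ U := fun n x => (hU n).2.ge (mem_univ x)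
  choose U h1 h2 using h
  refine ⟨univ, fun n => U n '' (e ⁻¹' Iic n), dense_univ, fun n => ⟨?_,
    ((finite_Iic n).preimage he.injOn).image _⟩, fun F _ hF => ?_⟩
  · rintro _ ⟨x, -, rfl⟩
    exact h1 n x
  · obtain ⟨N, hN⟩ := (hF.image e).bddAbove
    exact (Ici_infinite N).mono fun n hn x hx => ⟨_, ⟨x, (hN ⟨x, hx, rfl⟩).trans hn, rfl⟩, h2 n x⟩

theorem ex : ∃ (X : Type) (_ : TopologicalSpace X), T3Space X ∧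
    Cardinal.mk X ≤ Cardinal.aleph 1 ∧ WL X ∧ ¬ WM X := by
  refine ⟨Pool.Agent.H17.Hech.Y, inferInstance, inferInstance, Pool.Agent.H17.Hech.card_le,
    fun 𝒰 h1 h2 => ?_, fun h => ?_⟩
  · have h : ∀ x, ∃ U ∈ 𝒰, x ∈ U := fun x => h2.ge (mem_univ x)
    choose U h3 h4 using h
    choose F g h5 h6 h7 h8 using fun x => h1 _ (h3 x) x (h4 x)
    obtain ⟨D, h9, h10⟩ := Pool.Agent.H17.Hech.wl F g h5 h6 h7
    refine ⟨U '' D, by rintro _ ⟨x, -, rfl⟩; exact h3 x, h9.image _, h10.mono ?_⟩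
    rw [sUnion_image]
    exact iUnion₂_mono fun x _ => h8 x
  · obtain ⟨𝒰, h1, h2⟩ := Pool.Agent.H17.Hech.not_wm
    obtain ⟨𝒱, h3, h4⟩ := h 𝒰 h1
    exact h2 𝒱 h3 h4

theorem result :
    (∃ (X : Type) (_ : TopologicalSpace X), T3Space X ∧
      Cardinal.mk X ≤ Cardinal.aleph 1 ∧ WL X ∧ ¬ WM X) ∧
    ((∀ (X : Type) [TopologicalSpace X], WL X → Cardinal.mk X < dd → WSK X) ↔
      dd ≤ Cardinal.aleph 1) ∧
    ((∀ (X : Type) [TopologicalSpace X], WL X → Cardinal.mk X < dd → WS X) ↔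
      dd ≤ Cardinal.aleph 1) ∧
    ((∀ (X : Type) [TopologicalSpace X], WL X → Cardinal.mk X < dd → WM X) ↔
      dd ≤ Cardinal.aleph 1) := by
  have h1 : (∀ (X : Type) [TopologicalSpace X], WL X → Cardinal.mk X < dd → WM X) →
      dd ≤ Cardinal.aleph 1 := fun h => not_lt.1 fun h' => by
    obtain ⟨X, _, -, h2, h3, h4⟩ := ex
    exact h4 (h X h3 (h2.trans_lt h'))
  have h2 : dd ≤ Cardinal.aleph 1 →
      ∀ (X : Type) [TopologicalSpace X], WL X → Cardinal.mk X < dd → WSK X := fun h X _ _ h' => by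
    have : Countable X := Cardinal.mk_le_aleph0_iff.1 (Cardinal.lt_aleph_one_iff.1 (h'.trans_le h))
    exact cnt X
  exact ⟨ex, ⟨fun h => h1 fun X _ a b => b_c X (a_b X (h X a b)), h2⟩,
    ⟨fun h => h1 fun X _ a b => b_c X (h X a b), fun h X _ a b => a_b X (h2 h X a b)⟩,
    ⟨h1, fun h X _ a b => b_c X (a_b X (h2 h X a b))⟩⟩

end Pool.Agent.Results.MP_ed8104_gt.Indep
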